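import Pool.Agent.Y292.KS.Main
import Pool.Agent.Y292.KS.Pack
import Pool.Agent.Y292.KS.WildP
import Pool.Agent.Y292.KS.Base
import Pool.Agent.Y292.KS.Bun
import Pool.Agent.Y569.KS.Ch
import Pool.Agent.Y569.KS.Seq
import Pool.Agent.Y569.KS.Piece
import Pool.Agent.Y569.KS.Sys
import Pool.Agent.Y569.KS.Dim
import Pool.Agent.Y286.KS.UNI

set_option autoImplicit false

/-!
# Extremal Kakeya sets need not be close to sticky

For every `n ≥ 3` and every Kakeya set `K` of `ℝ^n` there is a Kakeya set `K'` of no larger Hausdorff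
dimension such that every set of lines containing a line in each direction, each meeting `K'` in a
segment of length one, has packing dimension at least `2 (n - 1)`, the dimension of the manifold of
all lines.  Consequently the conclusion of the question Q1 fails in every dimension `n ≥ 3`, for
every `ε < n - 1`, and for `n ≥ 3` the question Q1 (which assumes `d_n < n`) is equivalent to the
Kakeya conjecture `d_n = n`.

Idea.  `K'` contains, for the directions `(1, v)`, `v` in a Cantor set, only one segment each, at a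
position `x(v)` such that the set of all `(x(v), v)` has packing dimension `2 (n - 1)` (but
Hausdorff dimension zero); the other directions are covered by countably many thin affine copies of
`K` in pairwise disjoint tubes, which accumulate only at the special segments.  A connected subset
of a finite disjoint union of closed sets lies in one of them, which excludes further segments in
the special directions.
-/

namespace Pool.Agent.Results.MP_a467b6_an.NeverSticky

open Set Pool.Agent.Y292.KS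

/-- Kakeya sets: compact sets containing a segment of length one in every direction. -/
def Kakeya {n : ℕ} (K : Set (EuclideanSpace ℝ (Fin n))) : Prop :=
  IsCompact K ∧ ∀ e : EuclideanSpace ℝ (Fin n), ‖e‖ = 1 →
    ∃ x : EuclideanSpace ℝ (Fin n), ∀ t ∈ Set.Icc (0 : ℝ) 1, x + t • e ∈ K

/-- `d_n`, the infimum of the Hausdorff dimensions of the Kakeya sets of `ℝ^n`. -/
noncomputable def dMin (n : ℕ) : ENNReal :=
  ⨅ (K : Set (EuclideanSpace ℝ (Fin n))) (_ : Kakeya K), dimH K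

/-- `L` is a set of lines (a line is given by a unit direction `q.1` and the foot `q.2` of the
perpendicular from the origin) containing at least one line in each direction, such that each line
of `L` meets `K` in a set containing a segment of length one. -/
def Lines {n : ℕ} (K : Set (EuclideanSpace ℝ (Fin n)))
    (L : Set (EuclideanSpace ℝ (Fin n) × EuclideanSpace ℝ (Fin n))) : Prop :=
  (∀ q ∈ L, ‖q.1‖ = 1 ∧ inner ℝ q.1 q.2 = (0 : ℝ) ∧
    ∃ a : ℝ, ∀ t ∈ Set.Icc a (a + 1), q.2 + t • q.1 ∈ K) ∧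
  (∀ e : EuclideanSpace ℝ (Fin n), ‖e‖ = 1 → ∃ p : EuclideanSpace ℝ (Fin n), (e, p) ∈ L)

/-- The packing dimension of `L` is at most `D`: for every `s > D` the set `L` is a countable union
of sets of upper box dimension at most `s`. -/
def PackingLe {n : ℕ} (L : Set (EuclideanSpace ℝ (Fin n) × EuclideanSpace ℝ (Fin n)))
    (D : ℝ) : Prop :=
  ∀ s : ℝ, D < s →
    ∃ P : ℕ → Set (EuclideanSpace ℝ (Fin n) × EuclideanSpace ℝ (Fin n)),
      L ⊆ (⋃ i, P i) ∧
      ∀ i, ∀ t : ℝ, s < t → ∃ δ₀ : ℝ, 0 < δ₀ ∧ ∀ δ : ℝ, 0 < δ → δ < δ₀ →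
        ∃ G : Finset (EuclideanSpace ℝ (Fin n) × EuclideanSpace ℝ (Fin n)),
          (G.card : ℝ) ≤ δ ^ (-t) ∧ P i ⊆ ⋃ x ∈ G, Metric.ball x δ

/-- `K` is `ε`-close to being sticky. -/
def CloseToSticky {n : ℕ} (ε : ℝ) (K : Set (EuclideanSpace ℝ (Fin n))) : Prop :=
  ∃ L : Set (EuclideanSpace ℝ (Fin n) × EuclideanSpace ℝ (Fin n)),
    Lines K L ∧ PackingLe L ((n : ℝ) - 1 + ε)

/-- The conclusion of the question Q1 in dimension `n`. -/
def Conclusion (n : ℕ) : Prop :=
  ∀ ε : ℝ, 0 < ε → ∃ η : ℝ, 0 < η ∧ ∀ K : Set (EuclideanSpace ℝ (Fin n)), Kakeya K →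
    dimH K ≤ dMin n + ENNReal.ofReal η → CloseToSticky ε K

theorem main {n : ℕ} (hn : 3 ≤ n) (K : Set (EuclideanSpace ℝ (Fin n))) (hK : Kakeya K) :
    ∃ K' : Set (EuclideanSpace ℝ (Fin n)), Kakeya K' ∧ dimH K' ≤ dimH K ∧
      ∀ L, Lines K' L → ∀ D : ℝ, D < 2 * ((n : ℝ) - 1) → ¬ PackingLe L D := by
  obtain ⟨m, rfl⟩ : ∃ m, n = m + 1 := ⟨n - 1, by omega⟩
  obtain ⟨K', h1, h2, h3, h4⟩ := t_MAIN Pool.Agent.Y569.KS.t_CH Pool.Agent.Y569.KS.t_SEQ
    (t_BUN Pool.Agent.Y569.KS.t_PIECE) Pool.Agent.Y569.KS.t_SYS Pool.Agent.Y569.KS.t_DIM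
    Pool.Agent.Y286.KS.t_UNI t_WILD t_BASE t_PACK m (by omega) K hK.1 hK.2
  refine ⟨K', ⟨h1, h2⟩, h3, fun L hL D hD hp => ?_⟩
  have hD' : D < 2 * (m : ℝ) := by push_cast at hD; linarith
  obtain ⟨s, hs1, hs2⟩ := exists_between hD'
  exact h4 L hL s hs2 (hp s hs1)

theorem dMin_le (n : ℕ) : dMin n ≤ n := by
  have hK : Kakeya (Metric.closedBall (0 : EuclideanSpace ℝ (Fin n)) 1) := by
    refine ⟨isCompact_closedBall _ _, fun e he => ⟨0, fun t ht => ?_⟩⟩
    rw [mem_closedBall_zero_iff, zero_add, norm_smul, he, mul_one, Real.norm_eq_abs,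
      abs_of_nonneg ht.1]
    exact ht.2
  refine (iInf₂_le _ hK).trans ((dimH_mono (subset_univ _)).trans ?_)
  rw [Real.dimH_univ_eq_finrank]
  simp

/-- **Theorem.** Let `n ≥ 3`.
(1) For every Kakeya set `K` of `ℝ^n` there is a Kakeya set `K'` with `dim_H K' ≤ dim_H K` such that
every set of lines with a line in each direction, each containing a unit segment of `K'`, has
packing dimension at least `2 (n - 1)`; so `K'` is not `ε`-close to being sticky for any
`ε < n - 1`.
(2) For all `0 < ε < n - 1` and `η > 0` there is a Kakeya set of dimension at most `d_n + η` which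
is not `ε`-close to being sticky: the conclusion of Q1 fails in `ℝ^n`.
(3) The statement of Q1 in `ℝ^n` holds if and only if `d_n = n` (the Kakeya conjecture). -/
theorem result (n : ℕ) (hn : 3 ≤ n) :
    (∀ K : Set (EuclideanSpace ℝ (Fin n)), Kakeya K →
      ∃ K' : Set (EuclideanSpace ℝ (Fin n)), Kakeya K' ∧ dimH K' ≤ dimH K ∧
        (∀ L, Lines K' L → ∀ D : ℝ, D < 2 * ((n : ℝ) - 1) → ¬ PackingLe L D) ∧
        ∀ ε : ℝ, ε < (n : ℝ) - 1 → ¬ CloseToSticky ε K') ∧
    (∀ ε : ℝ, 0 < ε → ε < (n : ℝ) - 1 → ∀ η : ℝ, 0 < η →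
      ∃ K : Set (EuclideanSpace ℝ (Fin n)), Kakeya K ∧ dimH K ≤ dMin n + ENNReal.ofReal η ∧
        ¬ CloseToSticky ε K) ∧
    ¬ Conclusion n ∧
    ((dMin n < (n : ENNReal) → Conclusion n) ↔ dMin n = (n : ENNReal)) := by
  have h1 : ∀ K : Set (EuclideanSpace ℝ (Fin n)), Kakeya K →
      ∃ K' : Set (EuclideanSpace ℝ (Fin n)), Kakeya K' ∧ dimH K' ≤ dimH K ∧
        (∀ L, Lines K' L → ∀ D : ℝ, D < 2 * ((n : ℝ) - 1) → ¬ PackingLe L D) ∧
        ∀ ε : ℝ, ε < (n : ℝ) - 1 → ¬ CloseToSticky ε K' := by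
    intro K hK
    obtain ⟨K', hK', hd, hL⟩ := main hn K hK
    refine ⟨K', hK', hd, hL, ?_⟩
    rintro ε hε ⟨L, hL1, hL2⟩
    exact hL L hL1 _ (by linarith) hL2
  have h2 : ∀ ε : ℝ, 0 < ε → ε < (n : ℝ) - 1 → ∀ η : ℝ, 0 < η →
      ∃ K : Set (EuclideanSpace ℝ (Fin n)), Kakeya K ∧ dimH K ≤ dMin n + ENNReal.ofReal η ∧
        ¬ CloseToSticky ε K := by
    intro ε _ hε η hη
    have hfin : dMin n ≠ ⊤ := ne_top_of_le_ne_top (ENNReal.natCast_ne_top n) (dMin_le n)
    have hlt : dMin n < dMin n + ENNReal.ofReal η :=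
      ENNReal.lt_add_right hfin (by simpa using hη)
    obtain ⟨K, hK⟩ := iInf_lt_iff.1 hlt
    obtain ⟨hKk, hKd⟩ := iInf_lt_iff.1 hK
    obtain ⟨K', hK', hd, -, hs⟩ := h1 K hKk
    exact ⟨K', hK', hd.trans hKd.le, hs ε hε⟩
  have hn3 : (3 : ℝ) ≤ (n : ℝ) := by exact_mod_cast hn
  have h3 : ¬ Conclusion n := by
    intro hC
    obtain ⟨η, hη, h⟩ := hC 1 one_pos
    obtain ⟨K, hK, hd, hs⟩ := h2 1 one_pos (by linarith) η hη
    exact hs (h K hK hd)
  refine ⟨h1, h2, h3, fun h => ?_, fun h hlt => absurd hlt (by rw [h]; exact lt_irrefl _)⟩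
  by_contra hne
  exact h3 (h (lt_of_le_of_ne (dMin_le n) hne))

end Pool.Agent.Results.MP_a467b6_an.NeverSticky
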